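import Pool.Agent.TH553.PF.Main

/-!
# Galois representations over a number field from finitely many extensions of coprime degrees

Let `K` be a number field and let `P_v` be polynomials for the primes `v` of `K` (the Hecke
polynomials `X² - a_v X + b_v N(v)` of an eigenclass).  Let `F_i` be extensions of `K` — not
necessarily Galois over `K` — inside a finite Galois extension `M`, such that every element of the
Galois group of `K` is conjugate to an element of the Galois group of some `F_i` (every prime of `K`
which is unramified in `M` has a prime of degree one in some `F_i`), and such that the degrees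
`[F_i : K]` have no common prime factor.  We show that representations of the Galois groups of the
`F_i` which are given by the polynomials `P_v`, and whose spans do not become smaller over `M`, come
from one representation of the Galois group of `K` itself.
-/

namespace Pool.Agent.Results.MP_976e2b_nt.CoprimeDegreePatching

open NumberField IsDedekindDomain Polynomial

/-- The absolute Galois group, with the Krull topology. -/
abbrev AbsGal (K : Type) [Field K] : Type := Gal(AlgebraicClosure K/K)

/-- `σ` is a Frobenius element at the prime `v` of `K`: there is a maximal ideal `Q` above `v` of the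
ring of all algebraic integers with `σ x ≡ x ^ N(v)` modulo `Q` for all `x`. -/
def IsFrobenius {K : Type} [Field K] [NumberField K] (v : HeightOneSpectrum (𝓞 K))
    (σ : AbsGal K) : Prop :=
  ∃ Q : Ideal (𝓞 (AlgebraicClosure K)), Q.IsMaximal ∧
    Q.comap (algebraMap (𝓞 K) (𝓞 (AlgebraicClosure K))) = v.asIdeal ∧
    ∀ x : 𝓞 (AlgebraicClosure K), σ • x - x ^ Ideal.absNorm v.asIdeal ∈ Q

/-- `σ` is in an inertia group at the prime `v` of `K`: there is a maximal ideal `Q` above `v` of the
ring of all algebraic integers with `σ x ≡ x` modulo `Q` for all `x`. -/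
def IsInertia {K : Type} [Field K] [NumberField K] (v : HeightOneSpectrum (𝓞 K))
    (σ : AbsGal K) : Prop :=
  ∃ Q : Ideal (𝓞 (AlgebraicClosure K)), Q.IsMaximal ∧
    Q.comap (algebraMap (𝓞 K) (𝓞 (AlgebraicClosure K))) = v.asIdeal ∧
    ∀ x : 𝓞 (AlgebraicClosure K), σ • x - x ∈ Q

/-- The representation `ρ` is semisimple: every stable subspace has a stable complement. -/
def IsSemisimple {G : Type} [Group G] {n : ℕ} {k : Type} [Field k]
    (ρ : G →* Matrix.GeneralLinearGroup (Fin n) k) : Prop :=
  ∀ W : Submodule k (Fin n → k),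
    (∀ g, ∀ x ∈ W, (ρ g : Matrix (Fin n) (Fin n) k).mulVec x ∈ W) →
    ∃ W' : Submodule k (Fin n → k),
      (∀ g, ∀ x ∈ W', (ρ g : Matrix (Fin n) (Fin n) k).mulVec x ∈ W') ∧ IsCompl W W'

/-- The extensions `F_i` are a *patching family* in the extension `M` of `K`: they are contained in
`M`, every element of the Galois group of `K` is conjugate to an element of the Galois group of some
`F_i`, and no prime number divides all degrees `[F_i : K]`. -/
structure IsPatchingFamily {K : Type} [Field K] (M : IntermediateField K (AlgebraicClosure K))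
    {I : Type} (F : I → IntermediateField K (AlgebraicClosure K)) : Prop where
  le : ∀ i, F i ≤ M
  cover : ∀ σ : AbsGal K, ∃ i, ∃ τ : AbsGal K, τ * σ * τ⁻¹ ∈ (F i).fixingSubgroup
  coprime : ∀ p : ℕ, p.Prime → ∃ i, ¬ p ∣ Module.finrank K (F i)

/-- The span of the image of `ρ` is already spanned by the image of the Galois group of `M` (for
example because the restriction of `ρ` to the Galois group of `M` is absolutely irreducible). -/
def HasFullSpan {K : Type} [Field K] {n : ℕ} {k : Type} [Field k]
    {F : IntermediateField K (AlgebraicClosure K)} (M : IntermediateField K (AlgebraicClosure K))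
    (ρ : F.fixingSubgroup →* Matrix.GeneralLinearGroup (Fin n) k) : Prop :=
  ∀ σ : F.fixingSubgroup, (ρ σ : Matrix (Fin n) (Fin n) k) ∈
    Submodule.span k {x | ∃ τ : F.fixingSubgroup, (τ : AbsGal K) ∈ M.fixingSubgroup ∧
      x = (ρ τ : Matrix (Fin n) (Fin n) k)}

theorem isInertia_conj {K : Type} [Field K] [NumberField K] {v : HeightOneSpectrum (𝓞 K)}
    {σ : AbsGal K} (h : IsInertia v σ) (τ : AbsGal K) : IsInertia v (τ * σ * τ⁻¹) := by
  obtain ⟨Q, hQm, hQv, hQ⟩ := h
  refine ⟨Pool.Agent.W401.Frob.tr τ Q, Pool.Agent.W401.Frob.tr_max τ Q hQm,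
    (Pool.Agent.W401.Frob.tr_comap τ Q).trans hQv, fun x => ?_⟩
  rw [Pool.Agent.W401.Frob.mem_tr, smul_sub, smul_smul]
  have h1 := hQ (τ⁻¹ • x)
  rw [smul_smul] at h1
  have h2 : τ⁻¹ * (τ * σ * τ⁻¹) = σ * τ⁻¹ := by group
  rw [h2]
  exact h1

/-- **Theorem.** Let `K` be a number field, `k` a Hausdorff topological field of characteristic zero
and `P_v` polynomials over `k` for the primes `v` of `K`. Let `M` be a finite Galois extension of `K`
and `F_i` a patching family in `M`. Let `ρ_i` be continuous semisimple `n`-dimensional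
representations over `k` of the absolute Galois groups of the `F_i`, with full span over `M`, such
that the Frobenius elements at `v` in the Galois group of `F_i` have the characteristic polynomial
`P_v`, for all but finitely many `v`. Then there is a continuous semisimple representation `r` of the
absolute Galois group of `K` such that

* the restriction of `r` to the Galois group of `F_i` is conjugate to `ρ_i`, for all `i`;
* at every prime `v` of `K` such that all `ρ_i` are unramified above `v` and have the characteristic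
  polynomial `P_v` at the Frobenius elements at `v`, the representation `r` is unramified and the
  Frobenius elements have the characteristic polynomial `P_v`. -/
theorem result {n : ℕ} (K : Type) [Field K] [NumberField K] (k : Type) [Field k] [CharZero k]
    [TopologicalSpace k] [IsTopologicalRing k] [T2Space k]
    (P : HeightOneSpectrum (𝓞 K) → k[X]) {I : Type}
    (M : IntermediateField K (AlgebraicClosure K)) [FiniteDimensional K M] [IsGalois K M]
    (F : I → IntermediateField K (AlgebraicClosure K)) (hF : IsPatchingFamily M F)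
    (ρ : ∀ i, (F i).fixingSubgroup →* Matrix.GeneralLinearGroup (Fin n) k)
    (hcont : ∀ i, Continuous fun g => (ρ i g : Matrix (Fin n) (Fin n) k))
    (hss : ∀ i, IsSemisimple (ρ i)) (hspan : ∀ i, HasFullSpan M (ρ i))
    (hρ : ∀ i, ∃ T : Set (HeightOneSpectrum (𝓞 K)), T.Finite ∧ ∀ v ∉ T,
      ∀ σ : (F i).fixingSubgroup, IsFrobenius v (σ : AbsGal K) →
        (ρ i σ : Matrix (Fin n) (Fin n) k).charpoly = P v) :
    ∃ r : AbsGal K →* Matrix.GeneralLinearGroup (Fin n) k,
      Continuous (fun g => (r g : Matrix (Fin n) (Fin n) k)) ∧ IsSemisimple r ∧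
      (∀ i, ∃ g : Matrix.GeneralLinearGroup (Fin n) k,
        ∀ σ : (F i).fixingSubgroup, r σ = g⁻¹ * ρ i σ * g) ∧
      ∀ v, (∀ i, (∀ σ : (F i).fixingSubgroup, IsInertia v (σ : AbsGal K) → ρ i σ = 1) ∧
          ∀ σ : (F i).fixingSubgroup, IsFrobenius v (σ : AbsGal K) →
            (ρ i σ : Matrix (Fin n) (Fin n) k).charpoly = P v) →
        (∀ σ, IsInertia v σ → r σ = 1) ∧
          ∀ σ, IsFrobenius v σ → (r σ : Matrix (Fin n) (Fin n) k).charpoly = P v := by
  obtain ⟨r, h1, h2, h3⟩ := Pool.Agent.TH553.PF.main P M F hF.le ρ hcont hss hρ hspan hF.cover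
    hF.coprime
  refine ⟨r, h1, h2, h3, fun v hv => ⟨fun σ hσ => ?_, fun σ hσ => ?_⟩⟩
  · obtain ⟨i, τ, hτ⟩ := hF.cover σ
    obtain ⟨g, hg⟩ := h3 i
    have h5 := hg ⟨_, hτ⟩
    rw [(hv i).1 ⟨_, hτ⟩ (isInertia_conj hσ τ), mul_one, inv_mul_cancel] at h5
    have h6 : r (τ * σ * τ⁻¹) = 1 := h5
    rw [map_mul, map_mul, map_inv, mul_inv_eq_one] at h6
    exact mul_eq_left.1 h6
  · obtain ⟨i, τ, hτ⟩ := hF.cover σ
    obtain ⟨g, hg⟩ := h3 i
    have h5 : r (τ * σ * τ⁻¹) = _ := hg ⟨_, hτ⟩
    have h6 := (hv i).2 ⟨_, hτ⟩ ((Pool.Agent.W401.Frob.main K).2.2 v σ τ hσ)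
    have h7 : (r (τ * σ * τ⁻¹) : Matrix (Fin n) (Fin n) k).charpoly = P v := by
      rw [h5, ← h6, Units.val_mul, Units.val_mul]
      exact Pool.Agent.TH119.PT.charpoly_cj g _
    rw [← h7, map_mul, map_mul, map_inv, Units.val_mul, Units.val_mul]
    have h8 := Pool.Agent.TH119.PT.charpoly_cj (r τ)⁻¹ (r σ : Matrix (Fin n) (Fin n) k)
    unfold Pool.Agent.TH119.PT.cj at h8
    rw [inv_inv] at h8
    exact h8.symm

end Pool.Agent.Results.MP_976e2b_nt.CoprimeDegreePatching
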